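import Pool.Agent.W499.WD.Base

set_option autoImplicit false
set_option linter.unusedVariables false
set_option linter.unusedSectionVars false

universe u

namespace Pool.Agent.W499.WD

open Pool.Agent.W558

variable {k E : Type u} [Field k] [Field E] [Algebra k E] {O : Subalgebra k E} {x y z w : E}

/-- The quotient of an element of `𝔪 ^ l` by `x ^ l`. -/
lemma sum_div (hx0 : x ≠ 0) (l : ℕ) (c : ℕ → E) :
    ∑ j ∈ Finset.range (l + 1), c j * x ^ (l - j) * y ^ j =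
      x ^ l * ∑ j ∈ Finset.range (l + 1), c j * (y / x) ^ j := by
  rw [Finset.mul_sum]
  refine Finset.sum_congr rfl fun j hj => ?_
  have hj' : j ≤ l := Nat.lt_succ_iff.1 (Finset.mem_range.1 hj)
  obtain ⟨i, rfl⟩ := Nat.exists_eq_add_of_le hj'
  rw [Nat.add_sub_cancel_left, div_pow, pow_add]
  field_simp

/-- The order of the two functions. -/
lemma exists_rho (htr : Algebra.trdeg k E = 2) [PerfectField k] (hod : WD_od.{u})
    (hpt : Pt2 O) (h : Par O x y) {F G : E} (hF : F ∈ O) (hG : G ∈ O) {c d : ℕ}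
    (h1 : ¬ Ox O x y (c + 1) F ∨ ¬ Ox O x y (c + 1) G)
    (h2 : ¬ Ox O y x (d + 1) F ∨ ¬ Ox O y x (d + 1) G) :
    ∃ ρ, ρ ≤ c ∧ ρ ≤ d ∧ Md O x y ρ F ∧ Md O x y ρ G ∧ (Od O x y ρ F ∨ Od O x y ρ G) := by
  obtain ⟨o1, o2, o3, o4, o5⟩ := hod k E htr O x y hpt h
  have hx := h.pu.mem
  have hy := h.pv.mem
  have hzero : ∀ l, Md O x y l 0 := fun l => ⟨fun _ => 0, fun _ => O.zero_mem, by simp⟩
  have hox0 : ∀ (a b : E) (j : ℕ), Ox O a b j 0 := fun a b j =>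
    ⟨0, O.zero_mem, 0, O.zero_mem, by ring⟩
  have hle : ∀ z l, Od O x y l z → ∀ c, ¬ Ox O x y (c + 1) z → l ≤ c := by
    intro z l hz c hc
    by_contra hlt
    push Not at hlt
    exact hc (o4 z l (c + 1) (o2 z l hz) hlt).1
  have hle' : ∀ z l, Od O x y l z → ∀ c, ¬ Ox O y x (c + 1) z → l ≤ c := by
    intro z l hz c hc
    by_contra hlt
    push Not at hlt
    exact hc (o4 z l (c + 1) (o2 z l hz) hlt).2
  by_cases hF0 : F = 0
  · subst hF0
    have h1' : ¬ Ox O x y (c + 1) G := h1.resolve_left fun hh => hh (hox0 _ _ _)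
    have h2' : ¬ Ox O y x (d + 1) G := h2.resolve_left fun hh => hh (hox0 _ _ _)
    have hG0 : G ≠ 0 := by rintro rfl; exact h1' (hox0 _ _ _)
    obtain ⟨l, hl⟩ := o1 G hG hG0
    exact ⟨l, hle _ _ hl _ h1', hle' _ _ hl _ h2', hzero l, o2 _ _ hl, Or.inr hl⟩
  obtain ⟨l, hl⟩ := o1 F hF hF0
  by_cases hG0 : G = 0
  · subst hG0
    have h1' : ¬ Ox O x y (c + 1) F := h1.resolve_right fun hh => hh (hox0 _ _ _)
    have h2' : ¬ Ox O y x (d + 1) F := h2.resolve_right fun hh => hh (hox0 _ _ _)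
    exact ⟨l, hle _ _ hl _ h1', hle' _ _ hl _ h2', o2 _ _ hl, hzero l, Or.inl hl⟩
  obtain ⟨l', hl'⟩ := o1 G hG hG0
  refine ⟨min l l', ?_, ?_, o3 _ _ _ (o2 _ _ hl) (min_le_left _ _),
    o3 _ _ _ (o2 _ _ hl') (min_le_right _ _), ?_⟩
  · rcases h1 with h1 | h1
    · exact (min_le_left _ _).trans (hle _ _ hl _ h1)
    · exact (min_le_right _ _).trans (hle _ _ hl' _ h1)
  · rcases h2 with h2 | h2
    · exact (min_le_left _ _).trans (hle' _ _ hl _ h2)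
    · exact (min_le_right _ _).trans (hle' _ _ hl' _ h2)
  · rcases le_total l l' with h3 | h3
    · rw [min_eq_left h3]; exact Or.inl hl
    · rw [min_eq_right h3]; exact Or.inr hl'

theorem f3 (hder : WD_der.{u}) (hthb : WD_thb.{u}) (hod : WD_od.{u}) (hqp : WD_qp.{u})
    (hqs : WD_qs.{u}) (hinv : WD_inv.{u}) : WD_f3.{u} := by
  intro k E _ _ _ _ htr O O' x y f m n c d hpt hpt' h hq hD hc hd
  obtain ⟨D1, D2, a1, a2, b1, b2, b3, b4, b5⟩ := hder k E htr O x y hpt h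
  obtain ⟨-, t2, -⟩ := hthb k E htr O x y D1 D2 hpt h a1 a2 b1 b2 b3 b4 b5
  have t3 := (hthb k E htr O x y D1 D2 hpt h a1 a2 b1 b2 b3 b4 b5).2.2 O' hpt'
  have t4 := ((hthb k E htr O y x D2 D1 hpt (Par_symm h) a2 a1 b4 b3 b2 b1
    (fun D => by rw [add_comm]; exact b5 D)).2.2 O' hpt').2.1 hq
  have t5 := t3.2.2 hq
  have hx := h.pu.mem
  have hy := h.pv.mem
  have hx0 := h.u0
  have hy0 := h.v0
  have hle := hq.le
  set F := (x * D1 f) * (x ^ (-m) * y ^ (-n)) with hFdef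
  set G := (y * D2 f) * (x ^ (-m) * y ^ (-n)) with hGdef
  have hzn : ∀ a b : ℤ, x ^ (-a) * y ^ (-b) = (x ^ a * y ^ b)⁻¹ := fun a b => by
    rw [zpow_neg, zpow_neg, mul_inv]
  have ev : ∀ (α β : E), (α • (x • D1) + β • (y • D2)) f = α * (x * D1 f) + β * (y * D2 f) :=
    fun α β => by simp [Derivation.add_apply, Derivation.smul_apply, smul_eq_mul]
  have hm1 : x • D1 ∈ Th O (uo O x ∪ uo O y) :=
    (t2 _).2 ⟨1, O.one_mem, 0, O.zero_mem, by simp⟩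
  have hm2 : y • D2 ∈ Th O (uo O x ∪ uo O y) :=
    (t2 _).2 ⟨0, O.zero_mem, 1, O.one_mem, by simp⟩
  have hF : F ∈ O := Ox_mem hx hy (hD.1 _ hm1).1
  have hG : G ∈ O := Ox_mem hx hy (hD.1 _ hm2).1
  have h1 : ¬ Ox O x y (c + 1) F ∨ ¬ Ox O x y (c + 1) G := by
    by_contra hcon
    push Not at hcon
    obtain ⟨θ, hθ, h3⟩ := hD.2.1
    obtain ⟨α, hα, β, hβ, rfl⟩ := (t2 θ).1 hθ
    apply h3
    rw [ev, show (α * (x * D1 f) + β * (y * D2 f)) * (x ^ (-m) * y ^ (-n)) = α * F + β * G by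
      rw [hFdef, hGdef]; ring]
    exact Ox_add (Ox_mul hα hcon.1) (Ox_mul hβ hcon.2)
  have h2 : ¬ Ox O y x (d + 1) F ∨ ¬ Ox O y x (d + 1) G := by
    by_contra hcon
    push Not at hcon
    obtain ⟨θ, hθ, h3⟩ := hD.2.2
    obtain ⟨α, hα, β, hβ, rfl⟩ := (t2 θ).1 hθ
    apply h3
    rw [ev, show (α * (x * D1 f) + β * (y * D2 f)) * (x ^ (-m) * y ^ (-n)) = α * F + β * G by
      rw [hFdef, hGdef]; ring]
    exact Ox_add (Ox_mul hα hcon.1) (Ox_mul hβ hcon.2)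
  obtain ⟨ρ, hρc, hρd, hMF, hMG, hOd⟩ := exists_rho htr hod hpt h hF hG h1 h2
  have hτ : y / x ∈ O' := by rw [div_eq_mul_inv]; exact hq.div y h.pv
  obtain ⟨cF, hcF, eF⟩ := hMF
  obtain ⟨cG, hcG, eG⟩ := hMG
  rw [sum_div hx0] at eF eG
  set P := ∑ j ∈ Finset.range (ρ + 1), cF j * (y / x) ^ j with hP
  set R := ∑ j ∈ Finset.range (ρ + 1), cG j * (y / x) ^ j with hR
  have hPO : P ∈ O' := O'.sum_mem fun j _ => O'.mul_mem (hle (hcF j)) (O'.pow_mem hτ j)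
  have hRO : R ∈ O' := O'.sum_mem fun j _ => O'.mul_mem (hle (hcG j)) (O'.pow_mem hτ j)
  have hxρ : x ^ ρ ≠ 0 := pow_ne_zero _ hx0
  -- one of the two is not in `(x, y' ^ (ρ + 1))`
  have hPR : ∀ y', Par O' x y' → ¬ Ox O' x y' (ρ + 1) P ∨ ¬ Ox O' x y' (ρ + 1) R := by
    intro y' hy'
    rcases hOd with ho | ho
    · obtain ⟨cc, hcc, hu, ee⟩ := ho
      rw [sum_div hx0, eF] at ee
      have ee' := mul_left_cancel₀ hxρ ee
      left
      rw [ee']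
      exact hqp k E htr O O' x y y' hpt hpt' h hq hy' ρ cc hcc hu
    · obtain ⟨cc, hcc, hu, ee⟩ := ho
      rw [sum_div hx0, eG] at ee
      have ee' := mul_left_cancel₀ hxρ ee
      right
      rw [ee']
      exact hqp k E htr O O' x y y' hpt hpt' h hq hy' ρ cc hcc hu
  set τ := y / x with hτdef
  have hτ0 : τ ≠ 0 := div_ne_zero hy0 hx0
  have hyτ : y = x * τ := by rw [hτdef]; field_simp
  -- values
  have vF : x * D1 f = x ^ (m + n + ρ) * τ ^ n * P := by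
    have e1 : x * D1 f = F * (x ^ m * y ^ n) := by
      rw [hFdef, hzn, mul_assoc, inv_mul_cancel₀, mul_one]
      exact mul_ne_zero (zpow_ne_zero _ hx0) (zpow_ne_zero _ hy0)
    rw [e1, eF, hyτ, mul_zpow, zpow_add₀ hx0, zpow_add₀ hx0, zpow_natCast]
    ring
  have vG : y * D2 f = x ^ (m + n + ρ) * τ ^ n * R := by
    have e1 : y * D2 f = G * (x ^ m * y ^ n) := by
      rw [hGdef, hzn, mul_assoc, inv_mul_cancel₀, mul_one]
      exact mul_ne_zero (zpow_ne_zero _ hx0) (zpow_ne_zero _ hy0)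
    rw [e1, eG, hyτ, mul_zpow, zpow_add₀ hx0, zpow_add₀ hx0, zpow_natCast]
    ring
  refine ⟨?_, ?_⟩
  · intro y' m' c' hτi hp' hD'
    have t6 := t5 hτi
    have key : m' = m + n + ρ ∧ c' ≤ ρ := by
      refine cmp1 (O := O') (S := {s | ∃ θ ∈ Th O' (uo O' x), s = θ f}) hp'.pu.mem hp'.pv.mem hx0
        ?_ ?_ ?_ ?_
      · rintro s ⟨θ, hθ, rfl⟩
        obtain ⟨α, hα, β, hβ, rfl⟩ := (t6 θ).1 hθ
        rw [ev, vF, vG]
        have e2 : (α * (x ^ (m + n + ρ) * τ ^ n * P) + β * (x ^ (m + n + ρ) * τ ^ n * R)) *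
            x ^ (-(m + n + ρ)) = τ ^ n * (α * P + β * R) := by
          rw [zpow_neg]
          have := zpow_ne_zero (m + n + ρ) hx0
          field_simp
        rw [e2]
        refine O'.mul_mem ?_ (O'.add_mem (O'.mul_mem hα hPO) (O'.mul_mem hβ hRO))
        cases n with
        | ofNat n => rw [Int.ofNat_eq_natCast, zpow_natCast]; exact O'.pow_mem hτ n
        | negSucc n => rw [zpow_negSucc, ← inv_pow]; exact O'.pow_mem hτi _
      · have hun : ∀ Q, ¬ Ox O' x y' (ρ + 1) Q →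
            ¬ Ox O' x y' (ρ + 1) (x ^ (m + n + ρ) * τ ^ n * Q * x ^ (-(m + n + ρ))) := by
          intro Q hQ h7
          apply hQ
          have e3 : x ^ (m + n + ρ) * τ ^ n * Q * x ^ (-(m + n + ρ)) = τ ^ n * Q := by
            rw [zpow_neg]
            have := zpow_ne_zero (m + n + ρ) hx0
            field_simp
          rw [e3] at h7
          have h8 : Q = τ ^ (-n) * (τ ^ n * Q) := by
            rw [← mul_assoc, ← zpow_add₀ hτ0]; simp
          rw [h8]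
          refine Ox_mul ?_ h7
          cases n with
          | ofNat n =>
            rw [Int.ofNat_eq_natCast, zpow_neg, zpow_natCast, ← inv_pow]
            exact O'.pow_mem hτi n
          | negSucc n =>
            rw [zpow_neg, zpow_negSucc, inv_inv]; exact O'.pow_mem hτ _
        rcases hPR y' hp' with h6 | h6
        · refine ⟨_, ⟨x • D1, (t6 _).2 ⟨1, O'.one_mem, 0, O'.zero_mem, by simp⟩, rfl⟩, ?_⟩
          rw [Derivation.smul_apply, smul_eq_mul, vF]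
          exact hun _ h6
        · refine ⟨_, ⟨y • D2, (t6 _).2 ⟨0, O'.zero_mem, 1, O'.one_mem, by simp⟩, rfl⟩, ?_⟩
          rw [Derivation.smul_apply, smul_eq_mul, vG]
          exact hun _ h6
      · rintro s ⟨θ, hθ, rfl⟩; exact hD'.1 θ hθ
      · obtain ⟨θ, hθ, h3⟩ := hD'.2; exact ⟨_, ⟨θ, hθ, rfl⟩, h3⟩
    exact key.2.trans (le_min hρc hρd)
  · intro m' n' c' d' hp' hD'
    have ev' : ∀ (α β : E), (α • (y • D2) + β • (x • D1)) f =
        α * (y * D2 f) + β * (x * D1 f) :=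
      fun α β => by simp [Derivation.add_apply, Derivation.smul_apply, smul_eq_mul]
    have e3 : ∀ Q, x ^ (m + n + ρ) * τ ^ n * Q * (x ^ (-(m + n + ρ)) * τ ^ (-n)) = Q := by
      intro Q
      rw [zpow_neg, zpow_neg]
      have := zpow_ne_zero (m + n + ρ) hx0
      have := zpow_ne_zero n hτ0
      field_simp
    have hmF : x • D1 ∈ Th O' (uo O' x ∪ uo O' τ) :=
      (t4 _).2 ⟨0, O'.zero_mem, 1, O'.one_mem, by simp⟩
    have hmG : y • D2 ∈ Th O' (uo O' x ∪ uo O' τ) :=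
      (t4 _).2 ⟨1, O'.one_mem, 0, O'.zero_mem, by simp⟩
    have hstr : ∀ Z Q, Z ∈ O → Z = x ^ ρ * Q → ¬ Ox O y x (d + 1) Z →
        ¬ Ox O' τ x (d - ρ + 1) Q := by
      intro Z Q hZ hZQ hn hox
      apply hn
      refine hqs k E htr O O' y x hpt hpt' (Par_symm h) hq hp' Z hZ (d + 1) ?_
      obtain ⟨α, hα, β, hβ, h7⟩ := hox
      refine ⟨x ^ ρ * α, O'.mul_mem (O'.pow_mem hp'.pu.mem ρ) hα, β, hβ, ?_⟩
      rw [hZQ, h7]
      have : d + 1 = ρ + (d - ρ + 1) := by omega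
      rw [this, pow_add]
      ring
    have key : m' = m + n + ρ ∧ n' = n ∧ c' ≤ ρ ∧ d' ≤ d - ρ := by
      refine cmp2 (O := O') (S := {s | ∃ θ ∈ Th O' (uo O' x ∪ uo O' τ), s = θ f}) hp'
        ?_ ?_ ?_ ?_ ?_ ?_
      · rintro s ⟨θ, hθ, rfl⟩
        obtain ⟨α, hα, β, hβ, rfl⟩ := (t4 θ).1 hθ
        rw [ev', vF, vG]
        have e2 : (α * (x ^ (m + n + ρ) * τ ^ n * R) + β * (x ^ (m + n + ρ) * τ ^ n * P)) *
            (x ^ (-(m + n + ρ)) * τ ^ (-n)) = α * R + β * P := by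
          rw [add_mul, mul_assoc α, mul_assoc β, e3, e3]
        rw [e2]
        exact O'.add_mem (O'.mul_mem hα hRO) (O'.mul_mem hβ hPO)
      · rcases hPR τ hp' with h6 | h6
        · refine ⟨_, ⟨x • D1, hmF, rfl⟩, ?_⟩
          rw [Derivation.smul_apply, smul_eq_mul, vF, e3]
          exact h6
        · refine ⟨_, ⟨y • D2, hmG, rfl⟩, ?_⟩
          rw [Derivation.smul_apply, smul_eq_mul, vG, e3]
          exact h6
      · rcases h2 with h6 | h6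
        · refine ⟨_, ⟨x • D1, hmF, rfl⟩, ?_⟩
          rw [Derivation.smul_apply, smul_eq_mul, vF, e3]
          exact hstr _ _ hF eF h6
        · refine ⟨_, ⟨y • D2, hmG, rfl⟩, ?_⟩
          rw [Derivation.smul_apply, smul_eq_mul, vG, e3]
          exact hstr _ _ hG eG h6
      · rintro s ⟨θ, hθ, rfl⟩; exact hD'.1 θ hθ
      · obtain ⟨θ, hθ, h3⟩ := hD'.2.1; exact ⟨_, ⟨θ, hθ, rfl⟩, h3⟩
      · obtain ⟨θ, hθ, h3⟩ := hD'.2.2; exact ⟨_, ⟨θ, hθ, rfl⟩, h3⟩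
    refine ⟨key.2.2.1.trans (le_min hρc hρd), ?_⟩
    have := key.2.2.1
    have := key.2.2.2
    omega

theorem f4 (hder : WD_der.{u}) (hthb : WD_thb.{u}) : WD_f4.{u} := by
  intro k E _ _ _ _ htr O O' x y f m n c d hpt hpt' h hq hD hc hd hres
  obtain ⟨D1, D2, a1, a2, b1, b2, b3, b4, b5⟩ := hder k E htr O x y hpt h
  obtain ⟨-, t2, -⟩ := hthb k E htr O x y D1 D2 hpt h a1 a2 b1 b2 b3 b4 b5
  have t3 := (hthb k E htr O x y D1 D2 hpt h a1 a2 b1 b2 b3 b4 b5).2.2 O' hpt'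
  have t4 := ((hthb k E htr O y x D2 D1 hpt (Par_symm h) a2 a1 b4 b3 b2 b1
    (fun D => by rw [add_comm]; exact b5 D)).2.2 O' hpt').2.1 hq
  have t5 := t3.2.2 hq
  have hx := h.pu.mem
  have hy := h.pv.mem
  have hx0 := h.u0
  have hy0 := h.v0
  have hle := hq.le
  obtain ⟨A, hA, hpA⟩ := hpt
  have hloc := hpA.loc
  have hM0 : x ^ m * y ^ n ≠ 0 := mul_ne_zero (zpow_ne_zero _ hx0) (zpow_ne_zero _ hy0)
  have hzn : x ^ (-m) * y ^ (-n) = (x ^ m * y ^ n)⁻¹ := by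
    rw [zpow_neg, zpow_neg, mul_inv]
  have ev : ∀ (α β : E), (α • (x • D1) + β • (y • D2)) f = α * (x * D1 f) + β * (y * D2 f) :=
    fun α β => by simp [Derivation.add_apply, Derivation.smul_apply, smul_eq_mul]
  obtain ⟨θ0, hθ0, e0⟩ := hres x h.pu
  obtain ⟨α0, hα0, β0, hβ0, g0⟩ := (t2 θ0).1 hθ0
  have hne : θ0 f ≠ 0 := by rw [e0]; exact mul_ne_zero hx0 hM0
  have hdiv : ∀ θ ∈ Th O (uo O x ∪ uo O y), θ f / θ0 f ∈ O' := by
    intro θ hθ
    have h1 := (hD.1 θ hθ).1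
    have h2 : NU O (θ f * (x ^ (-m) * y ^ (-n))) := by
      obtain ⟨α, hα, β, hβ, h3⟩ := h1
      rw [h3]
      refine hloc _ _ (h.pu.mul_left hα) ?_
      obtain ⟨c, rfl⟩ := Nat.exists_eq_add_of_le' hc
      rw [pow_succ, ← mul_assoc]
      exact h.pv.mul_left (O.mul_mem hβ (O.pow_mem hy c))
    have h3 := hq.div _ h2
    rw [hzn] at h3
    have h4 : θ f / θ0 f = θ f * (x ^ m * y ^ n)⁻¹ * x⁻¹ := by
      rw [e0]; field_simp
    rw [h4]; exact h3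
  have hm1 : x • D1 ∈ Th O (uo O x ∪ uo O y) :=
    (t2 _).2 ⟨1, O.one_mem, 0, O.zero_mem, by simp⟩
  have hm2 : y • D2 ∈ Th O (uo O x ∪ uo O y) :=
    (t2 _).2 ⟨0, O.zero_mem, 1, O.one_mem, by simp⟩
  have d1 := hdiv _ hm1
  have d2 := hdiv _ hm2
  rw [Derivation.smul_apply, smul_eq_mul] at d1 d2
  refine ⟨fun hτi => ⟨θ0, ?_, hne, ?_⟩, θ0, ?_, hne, ?_⟩
  · exact (t5 hτi θ0).2 ⟨α0, hle hα0, β0, hle hβ0, g0⟩
  · intro θ' hθ'
    obtain ⟨α, hα, β, hβ, rfl⟩ := (t5 hτi θ').1 hθ'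
    rw [ev, add_div, mul_div_assoc α, mul_div_assoc β]
    exact O'.add_mem (O'.mul_mem hα d1) (O'.mul_mem hβ d2)
  · exact (t4 θ0).2 ⟨β0, hle hβ0, α0, hle hα0, by rw [g0, add_comm]⟩
  · intro θ' hθ'
    obtain ⟨α, hα, β, hβ, rfl⟩ := (t4 θ').1 hθ'
    rw [add_comm, ev, add_div, mul_div_assoc β, mul_div_assoc α]
    exact O'.add_mem (O'.mul_mem hβ d1) (O'.mul_mem hα d2)

end Pool.Agent.W499.WD
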