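import Pool.Agent.W558.WD.Stms

set_option autoImplicit false
set_option linter.unusedVariables false
set_option linter.unusedSectionVars false

universe u

namespace Pool.Agent.W499.WD

open Pool.Agent.W558

variable {k E : Type u} [Field k] [Field E] [Algebra k E] {O : Subalgebra k E} {x y z w : E}

lemma Par_symm (h : Par O x y) : Par O y x where
  pu := h.pv
  pv := h.pu
  u0 := h.v0
  v0 := h.u0
  gen := fun z hz => by
    obtain ⟨α, hα, β, hβ, h1⟩ := h.gen z hz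
    exact ⟨β, hβ, α, hα, by rw [h1]; ring⟩
  reg := fun b hb c hc h1 => by
    obtain ⟨d, hd, h2⟩ := h.reg c hc b hb h1.symm
    refine ⟨d, hd, ?_⟩
    apply mul_left_cancel₀ h.u0
    rw [← h1, h2]; ring

lemma Ox_mem (hx : x ∈ O) (hy : y ∈ O) {j : ℕ} (h : Ox O x y j z) : z ∈ O := by
  obtain ⟨α, hα, β, hβ, h1⟩ := h
  rw [h1]
  exact O.add_mem (O.mul_mem hα hx) (O.mul_mem hβ (O.pow_mem hy j))

lemma Ox_zero (hz : z ∈ O) : Ox O x y 0 z := ⟨0, O.zero_mem, z, hz, by ring⟩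

lemma Ox_mono (hy : y ∈ O) {i j : ℕ} (hij : i ≤ j) (h : Ox O x y j z) : Ox O x y i z := by
  obtain ⟨α, hα, β, hβ, h1⟩ := h
  refine ⟨α, hα, β * y ^ (j - i), O.mul_mem hβ (O.pow_mem hy _), ?_⟩
  rw [h1, mul_assoc β, ← pow_add, Nat.sub_add_cancel hij]

lemma Ox_mul {j : ℕ} (hw : w ∈ O) (h : Ox O x y j z) : Ox O x y j (w * z) := by
  obtain ⟨α, hα, β, hβ, h1⟩ := h
  exact ⟨w * α, O.mul_mem hw hα, w * β, O.mul_mem hw hβ, by rw [h1]; ring⟩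

lemma Ox_add {j : ℕ} (h1 : Ox O x y j z) (h2 : Ox O x y j w) : Ox O x y j (z + w) := by
  obtain ⟨α, hα, β, hβ, h1⟩ := h1
  obtain ⟨α', hα', β', hβ', h2⟩ := h2
  exact ⟨α + α', O.add_mem hα hα', β + β', O.add_mem hβ hβ', by rw [h1, h2]; ring⟩

lemma Ox_of_dvd {j : ℕ} (hw : w ∈ O) (h : z = x * w) : Ox O x y j z :=
  ⟨w, hw, 0, O.zero_mem, by rw [h]; ring⟩

/-- `y` is regular modulo `x`. -/
lemma reg_pow (h : Par O x y) {n : ℕ} (hz : z ∈ O) (hw : w ∈ O) (h1 : y ^ n * z = x * w) :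
    ∃ d ∈ O, z = x * d := by
  induction n generalizing w with
  | zero => exact ⟨w, hw, by rw [← h1]; ring⟩
  | succ n ih =>
    have hy := h.pv.mem
    obtain ⟨d, hd, h2⟩ := h.reg w hw (y ^ n * z) (O.mul_mem (O.pow_mem hy n) hz)
      (by rw [← h1]; ring)
    exact ih hd h2

/-- Comparison of two exponents. -/
lemma le_of_cmp (hx : x ∈ O) (hx0 : x ≠ 0) {S : Set E} {m m' : ℤ} {r : ℕ}
    (hB : ∀ s ∈ S, s * x ^ (-m') ∈ O)
    (hA : ∃ s ∈ S, ¬ Ox O x y (r + 1) (s * x ^ (-m))) : m' ≤ m := by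
  by_contra hlt
  push Not at hlt
  obtain ⟨s, hs, h1⟩ := hA
  apply h1
  obtain ⟨l, hl⟩ := Int.eq_ofNat_of_zero_le (show 0 ≤ m' - m - 1 by omega)
  refine Ox_of_dvd (w := x ^ l * (s * x ^ (-m'))) (O.mul_mem (O.pow_mem hx l) (hB s hs)) ?_
  have : (-m : ℤ) = 1 + (l : ℤ) + (-m') := by
    have : (l : ℤ) = m' - m - 1 := hl.symm
    omega
  rw [this, zpow_add₀ hx0, zpow_add₀ hx0, zpow_one, zpow_natCast]
  ring

/-- Comparison for one component. -/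
lemma cmp1 (hx : x ∈ O) (hy : y ∈ O) (hx0 : x ≠ 0) {S : Set E} {m m' : ℤ} {r c' : ℕ}
    (hA : ∀ s ∈ S, s * x ^ (-m) ∈ O)
    (hA' : ∃ s ∈ S, ¬ Ox O x y (r + 1) (s * x ^ (-m)))
    (hB : ∀ s ∈ S, Ox O x y c' (s * x ^ (-m')))
    (hB' : ∃ s ∈ S, ¬ Ox O x y (c' + 1) (s * x ^ (-m'))) : m' = m ∧ c' ≤ r := by
  have h1 : m' = m := le_antisymm
    (le_of_cmp hx hx0 (fun s hs => Ox_mem hx hy (hB s hs)) hA') (le_of_cmp hx hx0 hA hB')
  refine ⟨h1, ?_⟩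
  subst h1
  by_contra hlt
  push Not at hlt
  obtain ⟨s, hs, h1⟩ := hA'
  exact h1 (Ox_mono hy hlt (hB s hs))

/-- Comparison of two exponents, two components. -/
lemma le_of_cmp2 (h : Par O x y) {S : Set E} {m m' n n' : ℤ} {r : ℕ}
    (hA : ∀ s ∈ S, s * (x ^ (-m) * y ^ (-n)) ∈ O)
    (hB : ∀ s ∈ S, s * (x ^ (-m') * y ^ (-n')) ∈ O)
    (hA' : ∃ s ∈ S, ¬ Ox O x y (r + 1) (s * (x ^ (-m) * y ^ (-n)))) : m' ≤ m := by
  by_contra hlt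
  push Not at hlt
  obtain ⟨s, hs, h1⟩ := hA'
  apply h1
  have hx := h.pu.mem
  have hy := h.pv.mem
  have hx0 := h.u0
  have hy0 := h.v0
  obtain ⟨l, hl⟩ := Int.eq_ofNat_of_zero_le (show 0 ≤ m' - m - 1 by omega)
  have e1 : (-m : ℤ) = 1 + (l : ℤ) + (-m') := by
    have : (l : ℤ) = m' - m - 1 := hl.symm
    omega
  obtain ⟨N, hN⟩ : ∃ N : ℕ, 0 ≤ (N : ℤ) + (n' - n) := ⟨(n' - n).natAbs, by omega⟩
  obtain ⟨q, hq⟩ := Int.eq_ofNat_of_zero_le hN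
  have e2 : (N : ℤ) + (-n) = q + (-n') := by
    have : (q : ℤ) = N + (n' - n) := hq.symm
    omega
  obtain ⟨d, hd, h2⟩ := reg_pow h (n := N) (w := x ^ l * y ^ q * (s * (x ^ (-m') * y ^ (-n'))))
    (hA s hs) (O.mul_mem (O.mul_mem (O.pow_mem hx l) (O.pow_mem hy q)) (hB s hs)) (by
      have e3 : y ^ N * y ^ (-n) = y ^ q * y ^ (-n') := by
        rw [← zpow_natCast y N, ← zpow_add₀ hy0, e2, zpow_add₀ hy0, zpow_natCast]
      have e4 : x ^ (-m) = x * x ^ l * x ^ (-m') := by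
        rw [e1, zpow_add₀ hx0, zpow_add₀ hx0, zpow_one, zpow_natCast]
      calc y ^ N * (s * (x ^ (-m) * y ^ (-n))) = (y ^ N * y ^ (-n)) * (s * x ^ (-m)) := by ring
        _ = _ := by rw [e3, e4]; ring)
  exact Ox_of_dvd hd h2

/-- Comparison for two components. -/
lemma cmp2 (h : Par O x y) {S : Set E} {m m' n n' : ℤ} {r q c' d' : ℕ}
    (hA : ∀ s ∈ S, s * (x ^ (-m) * y ^ (-n)) ∈ O)
    (hA' : ∃ s ∈ S, ¬ Ox O x y (r + 1) (s * (x ^ (-m) * y ^ (-n))))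
    (hA'' : ∃ s ∈ S, ¬ Ox O y x (q + 1) (s * (x ^ (-m) * y ^ (-n))))
    (hB : ∀ s ∈ S, Ox O x y c' (s * (x ^ (-m') * y ^ (-n'))) ∧
      Ox O y x d' (s * (x ^ (-m') * y ^ (-n'))))
    (hB' : ∃ s ∈ S, ¬ Ox O x y (c' + 1) (s * (x ^ (-m') * y ^ (-n'))))
    (hB'' : ∃ s ∈ S, ¬ Ox O y x (d' + 1) (s * (x ^ (-m') * y ^ (-n')))) :
    m' = m ∧ n' = n ∧ c' ≤ r ∧ d' ≤ q := by
  have hx := h.pu.mem
  have hy := h.pv.mem
  have hBm : ∀ s ∈ S, s * (x ^ (-m') * y ^ (-n')) ∈ O := fun s hs => Ox_mem hx hy (hB s hs).1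
  have h1 : m' = m := le_antisymm (le_of_cmp2 h hA hBm hA') (le_of_cmp2 h hBm hA hB')
  have sw : ∀ a b : ℤ, x ^ a * y ^ b = y ^ b * x ^ a := fun a b => mul_comm _ _
  have h2 : n' = n := by
    have h' := Par_symm h
    simp only [sw] at hA hBm hA'' hB''
    exact le_antisymm (le_of_cmp2 h' hA hBm hA'') (le_of_cmp2 h' hBm hA hB'')
  subst h1 h2
  refine ⟨rfl, rfl, ?_, ?_⟩
  · by_contra hlt
    push Not at hlt
    obtain ⟨s, hs, h1⟩ := hA'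
    exact h1 (Ox_mono hy hlt (hB s hs).1)
  · by_contra hlt
    push Not at hlt
    obtain ⟨s, hs, h1⟩ := hA''
    exact h1 (Ox_mono hx hlt (hB s hs).2)

end Pool.Agent.W499.WD
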