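import Pool.Agent.W499.WD.Base

set_option autoImplicit false
set_option linter.unusedVariables false
set_option linter.unusedSectionVars false

universe u

namespace Pool.Agent.W499.WD

open Pool.Agent.W558

variable {k E : Type u} [Field k] [Field E] [Algebra k E] {O : Subalgebra k E} {x y z w : E}

lemma uo_eq {x' : E} (h : x' ∈ uo O x) : uo O x' = uo O x := by
  obtain ⟨w, hw, hw0, hwi, h1⟩ := h
  ext z
  constructor
  · rintro ⟨v, hv, hv0, hvi, h2⟩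
    refine ⟨v * w, O.mul_mem hv hw, mul_ne_zero hv0 hw0, ?_, ?_⟩
    · rw [mul_inv]; exact O.mul_mem hvi hwi
    · rw [h2, h1]; ring
  · rintro ⟨v, hv, hv0, hvi, h2⟩
    refine ⟨v * w⁻¹, O.mul_mem hv hwi, mul_ne_zero hv0 (inv_ne_zero hw0), ?_, ?_⟩
    · rw [mul_inv, inv_inv]; exact O.mul_mem hvi hw
    · rw [h2, h1]; field_simp

/-- Powers of units. -/
lemma zpow_mem (hw : w ∈ O) (hwi : w⁻¹ ∈ O) (m : ℤ) : w ^ m ∈ O := by
  cases m with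
  | ofNat n => rw [Int.ofNat_eq_natCast, zpow_natCast]; exact O.pow_mem hw n
  | negSucc n => rw [zpow_negSucc, ← inv_pow]; exact O.pow_mem hwi _

/-- Change of the parameters in `Ox`. -/
lemma Ox_change {x' y' v a : E} {j : ℕ} (hx : x' ∈ uo O x) (hv : v ∈ O) (hvi : v⁻¹ ∈ O)
    (hv0 : v ≠ 0) (hxO : x ∈ O) (hyO : y ∈ O) (ha : a ∈ O) (hy : y' = a * x + v * y)
    (h : Ox O x' y' j z) : Ox O x y j z := by
  obtain ⟨w, hw, hw0, hwi, h1⟩ := hx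
  obtain ⟨α, hα, β, hβ, h2⟩ := h
  have h3 : ∃ b ∈ O, y' ^ j = b * x + v ^ j * y ^ j := by
    clear h2
    induction j with
    | zero => exact ⟨0, O.zero_mem, by ring⟩
    | succ j ih =>
      obtain ⟨b, hb, h4⟩ := ih
      refine ⟨b * (a * x + v * y) + v ^ j * y ^ j * a, O.add_mem (O.mul_mem hb
        (O.add_mem (O.mul_mem ha hxO) (O.mul_mem hv hyO)))
        (O.mul_mem (O.mul_mem (O.pow_mem hv j) (O.pow_mem hyO j)) ha), ?_⟩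
      rw [pow_succ, h4, hy]; ring
  obtain ⟨b, hb, h4⟩ := h3
  refine ⟨α * w + β * b, O.add_mem (O.mul_mem hα hw) (O.mul_mem hβ hb), β * v ^ j,
    O.mul_mem hβ (O.pow_mem hv j), ?_⟩
  rw [h2, h1, h4]; ring

/-- The second parameter modulo the first one. -/
lemma par_change (hloc : ∀ x y, NU O x → NU O y → NU O (x + y)) {x' y' : E} (h : Par O x y)
    (h' : Par O x' y') (hx : x' ∈ uo O x) :
    ∃ a ∈ O, ∃ v ∈ O, v⁻¹ ∈ O ∧ v ≠ 0 ∧ y' = a * x + v * y := by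
  obtain ⟨a, ha, v, hv, h1⟩ := h.gen y' h'.pv
  by_cases hN : NU O v
  · exfalso
    obtain ⟨b, hb, c, hc, h2⟩ := h'.gen y h.pv
    obtain ⟨w, hw, hw0, hwi, h3⟩ := hx
    have h4 : x' * (a * w⁻¹ + v * b) = y' * (1 - v * c) := by
      have h5 : x = w⁻¹ * x' := by rw [h3]; field_simp
      have h6 : y' = a * (w⁻¹ * x') + v * (b * x' + c * y') := by
        rw [← h5, ← h2]; exact h1
      linear_combination -h6
    obtain ⟨d, hd, h5⟩ := h'.reg _ (O.add_mem (O.mul_mem ha hwi) (O.mul_mem hv hb)) _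
      (O.sub_mem O.one_mem (O.mul_mem hv hc)) h4
    have h6 : NU O (1 - v * c) := by rw [h5]; exact h'.pu.mul_right hd
    have h7 := hloc _ _ h6 (hN.mul_right hc)
    rw [sub_add_cancel] at h7
    exact not_NU_one h7
  · rw [not_NU_iff hv] at hN
    exact ⟨a, ha, v, hv, hN.2, hN.1, h1⟩

lemma uo_symm {x' : E} (h : x' ∈ uo O x) : x ∈ uo O x' := by
  obtain ⟨w, hw, hw0, hwi, h1⟩ := h
  exact ⟨w⁻¹, hwi, inv_ne_zero hw0, by rwa [inv_inv], by rw [h1]; field_simp⟩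

/-- Unit multiples of monomials. -/
lemma mono_unit {x' : E} (h : x' ∈ uo O x) (m : ℤ) :
    ∃ v ∈ O, v⁻¹ ∈ O ∧ v ≠ 0 ∧ x' ^ m = v * x ^ m := by
  obtain ⟨w, hw, hw0, hwi, h1⟩ := h
  refine ⟨w ^ m, zpow_mem hw hwi m, ?_, zpow_ne_zero _ hw0, by rw [h1, mul_zpow]⟩
  rw [← zpow_neg]; exact zpow_mem hw hwi _

lemma dat_change (hloc : ∀ x y, NU O x → NU O y → NU O (x + y)) {x' y' f : E} {m : ℤ} {c : ℕ}
    (h : Par O x y) (h' : Par O x' y') (hx : x' ∈ uo O x) (hD : Dat O x y f m c) :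
    Dat O x' y' f m c := by
  obtain ⟨a, ha, v, hv, hvi, hv0, h1⟩ := par_change hloc h h' hx
  obtain ⟨a', ha', v', hv', hvi', hv0', h1'⟩ := par_change hloc h' h (uo_symm hx)
  obtain ⟨u, hu, hui, hu0, h2⟩ := mono_unit hx (-m)
  unfold Dat
  rw [uo_eq hx]
  refine ⟨fun θ hθ => ?_, ?_⟩
  · have h3 := Ox_change (uo_symm hx) hv' hvi' hv0' h'.pu.mem h'.pv.mem ha' h1' (hD.1 θ hθ)
    rw [h2, show θ f * (u * x ^ (-m)) = u * (θ f * x ^ (-m)) by ring]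
    exact Ox_mul hu h3
  · obtain ⟨θ, hθ, h3⟩ := hD.2
    refine ⟨θ, hθ, fun h4 => h3 ?_⟩
    have h5 := Ox_change hx hv hvi hv0 h.pu.mem h.pv.mem ha h1 h4
    rw [h2] at h5
    have h6 := Ox_mul hui h5
    rwa [show u⁻¹ * (θ f * (u * x ^ (-m))) = θ f * x ^ (-m) by field_simp] at h6

lemma Ox_change2 {x' y' : E} {j : ℕ} (hx : x' ∈ uo O x) (hy : y' ∈ uo O y) (hxO : x ∈ O)
    (hyO : y ∈ O) (h : Ox O x' y' j z) : Ox O x y j z := by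
  obtain ⟨w, hw, hw0, hwi, h1⟩ := hy
  exact Ox_change hx hw hwi hw0 hxO hyO O.zero_mem (by rw [h1]; ring) h

lemma uo_mem {x' : E} (hxO : x ∈ O) (hx : x' ∈ uo O x) : x' ∈ O := by
  obtain ⟨w, hw, hw0, hwi, h1⟩ := hx
  rw [h1]; exact O.mul_mem hw hxO

lemma dat2_change {x' y' f : E} {m n : ℤ} {c d : ℕ} (h : Par O x y) (hx : x' ∈ uo O x)
    (hy : y' ∈ uo O y) (hD : Dat2 O x y f m n c d) : Dat2 O x' y' f m n c d := by
  obtain ⟨u, hu, hui, hu0, h2⟩ := mono_unit hx (-m)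
  obtain ⟨v, hv, hvi, hv0, h3⟩ := mono_unit hy (-n)
  have hx' := uo_mem h.pu.mem hx
  have hy' := uo_mem h.pv.mem hy
  have e1 : ∀ θ : Derivation k E E, θ f * (x' ^ (-m) * y' ^ (-n)) =
      (u * v) * (θ f * (x ^ (-m) * y ^ (-n))) := fun θ => by rw [h2, h3]; ring
  have e2 : ∀ θ : Derivation k E E, θ f * (x ^ (-m) * y ^ (-n)) =
      (u⁻¹ * v⁻¹) * (θ f * (x' ^ (-m) * y' ^ (-n))) := fun θ => by rw [h2, h3]; field_simp
  unfold Dat2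
  rw [uo_eq hx, uo_eq hy]
  refine ⟨fun θ hθ => ⟨?_, ?_⟩, ?_, ?_⟩
  · rw [e1]
    exact Ox_mul (O.mul_mem hu hv)
      (Ox_change2 (uo_symm hx) (uo_symm hy) hx' hy' (hD.1 θ hθ).1)
  · rw [e1]
    exact Ox_mul (O.mul_mem hu hv)
      (Ox_change2 (uo_symm hy) (uo_symm hx) hy' hx' (hD.1 θ hθ).2)
  · obtain ⟨θ, hθ, h4⟩ := hD.2.1
    refine ⟨θ, hθ, fun h5 => h4 ?_⟩
    rw [e2]
    exact Ox_mul (O.mul_mem hui hvi) (Ox_change2 hx hy h.pu.mem h.pv.mem h5)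
  · obtain ⟨θ, hθ, h4⟩ := hD.2.2
    refine ⟨θ, hθ, fun h5 => h4 ?_⟩
    rw [e2]
    exact Ox_mul (O.mul_mem hui hvi) (Ox_change2 hy hx h.pv.mem h.pu.mem h5)

lemma dat2_swap {f : E} {m n : ℤ} {c d : ℕ} (hD : Dat2 O x y f m n c d) :
    Dat2 O y x f n m d c := by
  unfold Dat2 at hD ⊢
  have e1 : y ^ (-n) * x ^ (-m) = x ^ (-m) * y ^ (-n) := mul_comm _ _
  rw [Set.union_comm, e1]
  exact ⟨fun θ hθ => ⟨(hD.1 θ hθ).2, (hD.1 θ hθ).1⟩, hD.2.2, hD.2.1⟩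

/-- The case of order zero. -/
lemma gd_of_zero (h : Par O x y) {b : Set E} {f M : E} (hM : M ≠ 0)
    (h1 : ∀ θ ∈ Th O b, θ f * M⁻¹ ∈ O)
    (h2 : ∃ θ ∈ Th O b, ¬ Ox O x y 1 (θ f * M⁻¹)) : Gd O b f := by
  obtain ⟨θ, hθ, h3⟩ := h2
  have h4 : ¬ NU O (θ f * M⁻¹) := by
    intro h5
    apply h3
    obtain ⟨α, hα, β, hβ, h6⟩ := h.gen _ h5
    exact ⟨α, hα, β, hβ, by rw [pow_one]; exact h6⟩
  rw [not_NU_iff (h1 θ hθ)] at h4
  have h5 : θ f ≠ 0 := fun h0 => h4.1 (by rw [h0, zero_mul])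
  refine ⟨θ, hθ, h5, fun θ' hθ' => ?_⟩
  have h6 : θ' f / θ f = (θ' f * M⁻¹) * (θ f * M⁻¹)⁻¹ := by field_simp
  rw [h6]
  exact O.mul_mem (h1 θ' hθ') h4.2

theorem main : WD_inv.{u} := by
  intro k E _ _ _ _ htr O x y f hpt h
  obtain ⟨A, hA, hpt⟩ := hpt
  have hloc := hpt.loc
  have hx := h.pu.mem
  have hy := h.pv.mem
  have hx0 := h.u0
  have hy0 := h.v0
  have ez : ∀ m n : ℤ, x ^ (-m) * y ^ (-n) = (x ^ m * y ^ n)⁻¹ := fun m n => by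
    rw [zpow_neg, zpow_neg, mul_inv]
  refine ⟨?_, ?_, ?_, ?_, ?_, ?_, ?_, ?_⟩
  · intro m c m' c' h1 h2
    have key : ∀ m c m' c', Dat O x y f m c → Dat O x y f m' c' → m' = m ∧ c' ≤ c := by
      intro m c m' c' h1 h2
      refine cmp1 (S := {s | ∃ θ ∈ Th O (uo O x), s = θ f}) hx hy hx0 ?_ ?_ ?_ ?_
      · rintro s ⟨θ, hθ, rfl⟩; exact Ox_mem hx hy (h1.1 θ hθ)
      · obtain ⟨θ, hθ, h3⟩ := h1.2; exact ⟨_, ⟨θ, hθ, rfl⟩, h3⟩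
      · rintro s ⟨θ, hθ, rfl⟩; exact h2.1 θ hθ
      · obtain ⟨θ, hθ, h3⟩ := h2.2; exact ⟨_, ⟨θ, hθ, rfl⟩, h3⟩
    have h3 := key _ _ _ _ h1 h2
    have h4 := key _ _ _ _ h2 h1
    exact ⟨h4.1, le_antisymm h4.2 h3.2⟩
  · intro m n c d m' n' c' d' h1 h2
    have key : ∀ m n c d m' n' c' d', Dat2 O x y f m n c d → Dat2 O x y f m' n' c' d' →
        m' = m ∧ n' = n ∧ c' ≤ c ∧ d' ≤ d := by
      intro m n c d m' n' c' d' h1 h2
      refine cmp2 (S := {s | ∃ θ ∈ Th O (uo O x ∪ uo O y), s = θ f}) h ?_ ?_ ?_ ?_ ?_ ?_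
      · rintro s ⟨θ, hθ, rfl⟩; exact Ox_mem hx hy (h1.1 θ hθ).1
      · obtain ⟨θ, hθ, h3⟩ := h1.2.1; exact ⟨_, ⟨θ, hθ, rfl⟩, h3⟩
      · obtain ⟨θ, hθ, h3⟩ := h1.2.2; exact ⟨_, ⟨θ, hθ, rfl⟩, h3⟩
      · rintro s ⟨θ, hθ, rfl⟩; exact h2.1 θ hθ
      · obtain ⟨θ, hθ, h3⟩ := h2.2.1; exact ⟨_, ⟨θ, hθ, rfl⟩, h3⟩
      · obtain ⟨θ, hθ, h3⟩ := h2.2.2; exact ⟨_, ⟨θ, hθ, rfl⟩, h3⟩
    have h3 := key _ _ _ _ _ _ _ _ h1 h2
    have h4 := key _ _ _ _ _ _ _ _ h2 h1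
    exact ⟨h4.1, h4.2.1, le_antisymm h4.2.2.1 h3.2.2.1, le_antisymm h4.2.2.2 h3.2.2.2⟩
  · intro x' y' m c hx' h' hD
    exact dat_change hloc h h' hx' hD
  · intro x' y' m n c d hx' hy' hD
    exact dat2_change h hx' hy' hD
  · intro m n c d hD
    exact dat2_swap hD
  · intro m hD
    refine gd_of_zero h (M := x ^ m) (zpow_ne_zero _ hx0) ?_ ?_
    · intro θ hθ
      rw [← zpow_neg]
      exact Ox_mem hx hy (hD.1 θ hθ)
    · obtain ⟨θ, hθ, h3⟩ := hD.2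
      refine ⟨θ, hθ, ?_⟩
      rw [← zpow_neg]
      exact h3
  · intro m n d hD
    refine gd_of_zero h (M := x ^ m * y ^ n)
      (mul_ne_zero (zpow_ne_zero _ hx0) (zpow_ne_zero _ hy0)) ?_ ?_
    · intro θ hθ
      rw [← ez]
      exact Ox_mem hx hy (hD.1 θ hθ).1
    · obtain ⟨θ, hθ, h3⟩ := hD.2.1
      refine ⟨θ, hθ, ?_⟩
      rw [← ez]
      exact h3
  · intro m n c hD
    refine gd_of_zero (Par_symm h) (M := x ^ m * y ^ n)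
      (mul_ne_zero (zpow_ne_zero _ hx0) (zpow_ne_zero _ hy0)) ?_ ?_
    · intro θ hθ
      rw [← ez]
      exact Ox_mem hx hy (hD.1 θ hθ).1
    · obtain ⟨θ, hθ, h3⟩ := hD.2.2
      refine ⟨θ, hθ, ?_⟩
      rw [← ez]
      exact h3

end Pool.Agent.W499.WD
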